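import Pool.Agent.Helper99.MKV.GoalsR
import Pool.Agent.Helper50.EXC.ASM

/-!
# MKV, packet FNM: recurrence of the walk in a field of Markovian cookie stacks
-/

open Finset MeasureTheory ProbabilityTheory Filter
open scoped ENNReal

namespace Pool.Agent.Helper20.MKV

open Pool.Agent.Helper99.MKV Pool.Agent.Helper99.ERW Pool.Agent.Helper99.EXC

lemma chS_ok {E : Type} [Fintype E] {p : E → E → ℝ} {f : E → ℝ} (hp : Stoch p)
    (hf : ∀ e, 0 ≤ f e ∧ f e ≤ 1) : (chS p f).Ok where
  wt0 := fun _ e i => hp.1 e i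
  wt1 := fun _ e => hp.2 e
  f0 := fun _ e => (hf e).1
  f1 := fun _ e => (hf e).2

lemma isCookieEnv_envOf {E : Type} {f : E → ℝ} (hf : ∀ e, 0 ≤ f e ∧ f e ≤ 1)
    (ξ : Site 2 → ℕ → E) : IsCookieEnv (envOf f ξ) := by
  intro z i
  have h := hf (ξ z i)
  refine ⟨fun e => ?_, ?_⟩
  · unfold envOf
    split_ifs <;> linarith
  · rw [Fintype.sum_prod_type]
    simp [envOf, Fin.sum_univ_two, Fintype.sum_bool]

lemma isBalanced_envOf {E : Type} (f : E → ℝ) (ξ : Site 2 → ℕ → E) : IsBalanced (envOf f ξ) :=
  fun _ _ _ => rfl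

lemma measurable_envOf {E : Type} [Fintype E] [MeasurableSpace E] [MeasurableSingletonClass E]
    (f : E → ℝ) : Measurable (envOf f : (Site 2 → ℕ → E) → Env 2) := by
  have hf : Measurable f := measurable_of_countable f
  refine measurable_pi_lambda _ fun z => measurable_pi_lambda _ fun e =>
    measurable_pi_lambda _ fun i => ?_
  have hz : Measurable (fun ξ : Site 2 → ℕ → E => f (ξ z i)) :=
    hf.comp ((measurable_pi_apply i).comp (measurable_pi_apply z))
  unfold envOf
  by_cases h : e.1 = 0
  · simp only [h, if_true]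
    exact hz.div_const 2
  · simp only [h, if_false]
    exact (measurable_const.sub hz).div_const 2

theorem FNM (hMKP : MKP_stmt) (hANN : ANN_stmt) (hLNK : LNK_stmt) (hCND : CND_stmt)
    (hGDM : GDM_stmt) (hHIE : HIE_stmt) : FNM_stmt := by
  intro E _ _ _ p f a ν _ Q _ hp hf ha0 ha1 hMean hSE hField Ω mΩ μ _ env X hX
  obtain ⟨c0, hc0, hG⟩ := hGDM E p f a ν hp hf ha0 ha1 hMean hSE
  have hνQ := (hMKP E p ν Q hp hField).1
  have hmeas0 : Measurable (fun (ξ : Site 2 → ℕ → E) z => ξ z 0) :=
    measurable_pi_lambda _ fun z => (measurable_pi_apply 0).comp (measurable_pi_apply z)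
  rw [hνQ] at hG
  have hG' := ae_of_ae_map hmeas0.aemeasurable hG
  have hhp := (hHIE E E (chS p f) (chS_ok hp hf)).2.2
  have hmE := measurable_envOf f
  have hPc : ∀ᵐ ω ∂(Q.map (envOf f)), IsCookieEnv ω := by
    have h1 : ∀ᵐ ω ∂(Q.map (envOf f)), IsCookieEnv ω ∧ IsBalanced ω := by
      rw [ae_map_iff hmE.aemeasurable Pool.Agent.Helper50.EXC.measurableSet_cb]
      exact Eventually.of_forall fun ξ => ⟨isCookieEnv_envOf hf ξ, isBalanced_envOf f ξ⟩
    filter_upwards [h1] with ω h using h.1
  unfold Recurrent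
  rw [ae_all_iff]
  intro y
  refine hCND Ω mΩ μ X hX.measurable_walk y c0 hc0 ?_
  intro m x
  by_cases hx : x 0 = 0
  · -- the main case
    set H : ℕ → (Site 2 → ℕ → E) → ℝ≥0∞ := fun N ξ =>
      ENNReal.ofReal (pathProb (envOf f ξ) x m) * ENNReal.ofReal (Pool.Agent.Helper99.MKV.hp (chS p f) N
      (x m - y, fun z => ξ (z + y) (visits x m (z + y)))) with hH
    have hb : ∀ N, ∫⁻ ξ, H N ξ ∂Q ≤ μ (cyl X x m ∩ {w | ∃ i, m ≤ i ∧ X i w = y}) := by
      intro N
      refine (hLNK E p f ν Q hp hf hField Ω mΩ μ env X hX y m N x hx).trans (measure_mono ?_)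
      rintro w ⟨h1, i, h2, _, h3⟩
      exact ⟨h1, i, h2, h3⟩
    have hmp : Measurable (fun ξ : Site 2 → ℕ → E => ENNReal.ofReal (pathProb (envOf f ξ) x m)) :=
      ((measurable_pathProb x m).comp hmE).ennreal_ofReal
    have hmH : ∀ N, Measurable (H N) := by
      intro N
      have h1 := (hANN E p f ν Q hp hf hField N).1 (x m - y)
      have h3 : Measurable (fun (ξ : Site 2 → ℕ → E) (z : Site 2) =>
          ξ (z + y) (visits x m (z + y))) :=
        measurable_pi_lambda _ fun z =>
          (measurable_pi_apply (visits x m (z + y))).comp (measurable_pi_apply (z + y))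
      have h2 : Measurable (fun ξ : Site 2 → ℕ → E => ENNReal.ofReal
          (Pool.Agent.Helper99.MKV.hp (chS p f) N
            (x m - y, fun z => ξ (z + y) (visits x m (z + y))))) := (h1.comp h3).ennreal_ofReal
      exact hmp.mul h2
    have hmono : Monotone H := by
      refine monotone_nat_of_le_succ fun N ξ => ?_
      exact mul_le_mul_right (ENNReal.ofReal_le_ofReal (hhp N _).2.2) _
    have hsup : ∫⁻ ξ, ⨆ N, H N ξ ∂Q ≤ μ (cyl X x m ∩ {w | ∃ i, m ≤ i ∧ X i w = y}) := by
      rw [lintegral_iSup hmH hmono]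
      exact iSup_le hb
    refine le_trans ?_ hsup
    have hcyl : μ (cyl X x m) = ∫⁻ ξ, ENNReal.ofReal (pathProb (envOf f ξ) x m) ∂Q := by
      have h1 := hX.lintegral_cyl hPc x hx m (fun _ => 1) measurable_const
      simp only [one_mul] at h1
      rw [lintegral_map (measurable_pathProb x m).ennreal_ofReal hmE] at h1
      rw [← h1, lintegral_const, one_mul, Measure.restrict_apply MeasurableSet.univ,
        Set.univ_inter]
    rw [hcyl, ← lintegral_const_mul _ hmp]
    refine lintegral_mono_ae ?_
    filter_upwards [hG'] with ξ hξ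
    obtain ⟨N, hN⟩ := hξ y (x m - y, fun z => ξ (z + y) (visits x m (z + y))) (by
      refine Set.Finite.subset (s := (fun z => z + y) ⁻¹' (((range m).image x : Finset (Site 2)) :
        Set (Site 2))) ?_ ?_
      · exact Set.Finite.preimage (fun u _ v _ h => add_right_cancel h) (Finset.finite_toSet _)
      · intro z hz
        simp only [Set.mem_ofPred_eq] at hz
        by_contra hcon
        apply hz
        have h0 : visits x m (z + y) = 0 := by
          unfold visits
          rw [Finset.card_eq_zero, Finset.filter_eq_empty_iff]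
          intro r hr hxr
          apply hcon
          simp only [Set.mem_preimage, Finset.coe_image, Set.mem_image, Finset.mem_coe]
          exact ⟨r, hr, hxr⟩
        rw [h0])
    refine le_trans ?_ (le_iSup (fun N => H N ξ) N)
    simp only [hH]
    rw [mul_comm]
    exact mul_le_mul_right (ENNReal.ofReal_le_ofReal hN) _
  · -- the walk starts at the origin
    have h0 : μ (cyl X x m) = 0 := by
      have h1 : ∀ᵐ w ∂μ, w ∉ cyl X x m := by
        filter_upwards [hX.start] with w hw hcon
        apply hx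
        rw [← hcon 0 (Nat.zero_le m), hw]
      exact measure_eq_zero_iff_ae_notMem.2 h1
    rw [h0, mul_zero]
    exact zero_le

end Pool.Agent.Helper20.MKV
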